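import Pool.Agent.R805.Weave.Coeff

/-!
# MP_592c03_gt: asymptotics of the higher twist numbers of weaving knots

The definitions are in `Pool/Agent/R805/Weave/Defs.lean`: `bracket` is the Kauffman bracket of a
closed braid (state sum over all smoothings), `jones` is the Jones polynomial in the variable `A`
(`t = A⁻⁴`), `twistNumber P j = |λ_{l+j}| + |λ_{h-j}|`, and `weaving n m` is the word
`(σ₁ σ₂⁻¹ σ₃ ⋯)^m` on `n + 1` strands.
-/

namespace Pool.Agent.Results.MP_592c03_gt.TwistNumbers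

open Filter Topology Pool.Agent.R805.Weave

/-- `d = (1 - (-1)^n) / 2` -/
noncomputable def d (n : ℕ) : ℝ := (1 - (-1) ^ n) / 2

/-- `r = (n - d) / 2` -/
noncomputable def r (n : ℕ) : ℝ := (n - d n) / 2

theorem d_eq (n : ℕ) : d n = ((n % 2 : ℕ) : ℝ) := by
  unfold d
  rcases Nat.even_or_odd n with h | h
  · rw [h.neg_one_pow, Nat.even_iff.mp h]; norm_num
  · rw [h.neg_one_pow, Nat.odd_iff.mp h]; norm_num

theorem r_eq (n : ℕ) : r n = ((n / 2 : ℕ) : ℝ) := by
  unfold r
  rw [d_eq]
  have h : n = 2 * (n / 2) + n % 2 := (Nat.div_add_mod n 2).symm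
  have h2 : (n : ℝ) = 2 * ((n / 2 : ℕ) : ℝ) + ((n % 2 : ℕ) : ℝ) := by exact_mod_cast h
  rw [h2]; ring

theorem side (n k β : ℕ) (hn : 2 ≤ n) (hk : 1 ≤ k) (hβ : β ≤ 1) :
    Tendsto (fun m : ℕ => |((∑ S : Finset (Fin (m * n)), term (lw n m β) k S : ℤ) : ℝ)| /
      (m : ℝ) ^ k) atTop (𝓝 (((n - (n + β) / 2 : ℕ) : ℝ) ^ k / k.factorial)) := by
  apply asym_main n ((n + β) / 2) (n + 1) k (5 * n) (by omega) hk _ (fun m => lw n m β ∅)
  · filter_upwards [eventually_ge_atTop 3] with m hm
    have := lw_lower (β := β) hn hm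
    rwa [card_ecols n β hβ] at this
  · filter_upwards with m
    have := lw_upper (n := n) (m := m) (β := β)
    rwa [card_ecols n β hβ] at this
  · filter_upwards [eventually_ge_atTop 3] with m hm
    have h1 := (loopDataW (β := β) hn hm).estimate k
    rw [model_sum, Fintype.card_fin] at h1
    exact h1

/-- **Q1, answered positively.** For every `n ≥ 2` and `k ≥ 1` the ratio of the twist number
`T_k(W(n+1, m))` and `((r+d)^k + r^k) m^k / k!` tends to `1` as `m → ∞`. -/
theorem result : ∀ n : ℕ, 2 ≤ n → ∀ k : ℕ, 1 ≤ k →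
    Tendsto (fun m : ℕ => (twistNumber (jones (weaving n m)) k : ℝ) /
      ((((r n + d n) ^ k + r n ^ k) * (m : ℝ) ^ k) / (k.factorial : ℝ))) atTop (𝓝 1) := by
  intro n hn k hk
  have h0 := side n k 0 hn hk (by norm_num)
  have h1 := side n k 1 hn hk le_rfl
  have h2 := h0.add h1
  have e0 : ((n - (n + 0) / 2 : ℕ) : ℝ) = r n + d n := by
    rw [r_eq, d_eq]
    have : n - (n + 0) / 2 = n / 2 + n % 2 := by omega
    rw [this]; push_cast; ring
  have e1 : ((n - (n + 1) / 2 : ℕ) : ℝ) = r n := by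
    rw [r_eq]
    have : n - (n + 1) / 2 = n / 2 := by omega
    rw [this]
  rw [e0, e1, ← add_div] at h2
  have hr : 0 < r n := by
    rw [r_eq]
    have : 0 < n / 2 := by omega
    exact_mod_cast this
  have hd : 0 ≤ d n := by rw [d_eq]; exact Nat.cast_nonneg _
  have hf : (0 : ℝ) < k.factorial := by exact_mod_cast k.factorial_pos
  have hc : 0 < ((r n + d n) ^ k + r n ^ k) / (k.factorial : ℝ) := by positivity
  have h3 := h2.div_const (((r n + d n) ^ k + r n ^ k) / (k.factorial : ℝ))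
  rw [div_self hc.ne'] at h3
  refine h3.congr' ?_
  filter_upwards [eventually_ge_atTop 3] with m hm
  rw [twist_eq n m hn hm k]
  have hm' : (0 : ℝ) < m := by
    have : 0 < m := by omega
    exact_mod_cast this
  push_cast
  rw [← add_div, div_div]
  congr 1
  field_simp

end Pool.Agent.Results.MP_592c03_gt.TwistNumbers
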